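import Pool.Agent.H699R2.Logic

/-!
# The least `n` such that a `Σ_n` sentence separates `ℝ_alg(t)` and `ℝ(t)` is `2`

Lower bound: `ℝ_alg(t)` is existentially closed in `ℝ(t)` (module `Transfer`).

Upper bound: the sentence says that there are a constant `c` and an element `T` such that, unless
`T` is a constant, an existential condition defining `c ≠ e` (with `T` in the place of `t`) fails.
It holds in `ℝ(t)` (`c = e`, `T = t`) and fails in `ℝ_alg(t)`, whose constants are algebraic. The
condition `c ≠ e` is diophantine in `ℝ(t)` because `ℕ` is.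
-/

open Filter Topology Polynomial FirstOrder FirstOrder.Language Pool.Agent.H699R2

namespace Pool.Agent.Results.MP_397872_lc.LeastSigma

/-- `Blocks e n φ`: the formula `φ` of the language of rings is prenex with a quantifier-free
matrix, and its quantifiers form exactly `n` alternating (nonempty) blocks of like quantifiers, the
first block being existential if `e` is `true` and universal if `e` is `false`. -/
inductive Blocks : Bool → ℕ → ∀ {k : ℕ}, Language.ring.BoundedFormula Empty k → Prop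
  | qf {e : Bool} {k : ℕ} {φ : Language.ring.BoundedFormula Empty k} (h : φ.IsQF) : Blocks e 0 φ
  | ex {n k : ℕ} {φ : Language.ring.BoundedFormula Empty (k + 1)} (h : Blocks false n φ) :
      Blocks true (n + 1) φ.ex
  | ex_same {n k : ℕ} {φ : Language.ring.BoundedFormula Empty (k + 1)}
      (h : Blocks true (n + 1) φ) : Blocks true (n + 1) φ.ex
  | all {n k : ℕ} {φ : Language.ring.BoundedFormula Empty (k + 1)} (h : Blocks true n φ) :
      Blocks false (n + 1) φ.all
  | all_same {n k : ℕ} {φ : Language.ring.BoundedFormula Empty (k + 1)}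
      (h : Blocks false (n + 1) φ) : Blocks false (n + 1) φ.all

/-- `Holds R φ`: the sentence `φ` of the language of rings is true in the commutative ring `R`. -/
def Holds (R : Type) [CommRing R] (φ : Language.ring.Sentence) : Prop :=
  letI := FirstOrder.Ring.compatibleRingOfRing R
  R ⊨ φ

theorem holds_iff {R : Type} [CommRing R] (φ : Language.ring.Sentence) (v : Empty → R)
    (xs : Fin 0 → R) : Holds R φ ↔
      @BoundedFormula.Realize Language.ring R (Ring.compatibleRingOfRing R).toStructure _ _ φ v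
        xs := by
  rw [Subsingleton.elim v (@default _ Unique.instInhabited),
    Subsingleton.elim xs (@default _ Unique.instInhabited)]
  exact Iff.rfl

theorem isExistential_of_blocks {e : Bool} {n k : ℕ} {φ : Language.ring.BoundedFormula Empty k}
    (h : Blocks e n φ) : (n = 0 → φ.IsQF) ∧ (e = true → n = 1 → φ.IsExistential) := by
  induction h with
  | qf h => exact ⟨fun _ => h, fun _ h1 => absurd h1 (by norm_num)⟩
  | ex h ih =>
    refine ⟨fun h0 => absurd h0 (by omega), fun _ h1 => ?_⟩
    exact BoundedFormula.IsExistential.ex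
      (BoundedFormula.IsExistential.of_isQF (ih.1 (by omega)))
  | ex_same h ih =>
    refine ⟨fun h0 => absurd h0 (by omega), fun h1 h2 => ?_⟩
    exact BoundedFormula.IsExistential.ex (ih.2 h1 h2)
  | all h ih => exact ⟨fun h0 => absurd h0 (by omega), fun h1 => absurd h1 (by simp)⟩
  | all_same h ih => exact ⟨fun h0 => absurd h0 (by omega), fun h1 => absurd h1 (by simp)⟩

theorem blocks_allN {n k : ℕ} : ∀ (m : ℕ) (φ : Language.ring.BoundedFormula Empty (k + m)),
    Blocks false (n + 1) φ → Blocks false (n + 1) (allN m φ)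
  | 0, _, h => h
  | m + 1, φ, h => blocks_allN m φ.all (Blocks.all_same h)

theorem blocks_allN' {n k : ℕ} (m : ℕ) (φ : Language.ring.BoundedFormula Empty (k + (m + 1)))
    (h : Blocks true n φ) : Blocks false (n + 1) (allN (m + 1) φ) :=
  blocks_allN m φ.all (Blocks.all h)

theorem blocks_exN {n k : ℕ} : ∀ (m : ℕ) (φ : Language.ring.BoundedFormula Empty (k + m)),
    Blocks true (n + 1) φ → Blocks true (n + 1) (exN m φ)
  | 0, _, h => h
  | m + 1, φ, h => blocks_exN m φ.ex (Blocks.ex_same h)

theorem blocks_exN' {n k : ℕ} (m : ℕ) (φ : Language.ring.BoundedFormula Empty (k + (m + 1)))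
    (h : Blocks false n φ) : Blocks true (n + 1) (exN (m + 1) φ) :=
  blocks_exN m φ.ex (Blocks.ex h)

/-- the embedding `ℝ_alg(t) → ℝ(t)` -/
theorem exists_embedding : ∃ _ : RatFunc RAlg →+* RatFunc ℝ, True := by
  have hinj : Function.Injective ((algebraMap ℝ[X] (RatFunc ℝ)).comp
      (mapRingHom (algebraMap RAlg ℝ))) := by
    rw [RingHom.coe_comp]
    exact (RatFunc.algebraMap_injective ℝ).comp
      (Polynomial.map_injective _ (algebraMap RAlg ℝ).injective)
  exact ⟨IsFractionRing.lift (A := (RAlg)[X]) (K := RatFunc RAlg) hinj, trivial⟩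

/-- No `Σ_1` sentence separates the two fields. -/
theorem lower (φ : Language.ring.Sentence) (h : Blocks true 1 φ) :
    Holds (RatFunc (algebraicClosure ℚ ℝ)) φ ↔ Holds (RatFunc ℝ) φ := by
  have hE := (isExistential_of_blocks h).2 rfl rfl
  let i1 := FirstOrder.Ring.compatibleRingOfRing (RatFunc (algebraicClosure ℚ ℝ))
  let i2 := FirstOrder.Ring.compatibleRingOfRing (RatFunc ℝ)
  constructor
  · intro h1
    obtain ⟨f, -⟩ := exists_embedding
    exact (holds_iff φ Empty.elim (f ∘ Fin.elim0)).2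
      (ex_up hE f Empty.elim Empty.elim Fin.elim0 ((holds_iff φ Empty.elim Fin.elim0).1 h1))
  · intro h1
    obtain ⟨xs, h2⟩ := ex_down hE Empty.elim Empty.elim Fin.elim0
      ((holds_iff φ Empty.elim Fin.elim0).1 h1)
    exact (holds_iff φ Empty.elim xs).2 h2

/-- the polynomial of the separating sentence -/
noncomputable def sepPoly (m : ℕ) (q : MvPolynomial (Option (Unit ⊕ Fin m)) ℤ) :
    MvPolynomial (Fin ((0 + 3) + (m + 2))) ℤ :=
  let c : MvPolynomial (Fin ((0 + 3) + (m + 2))) ℤ :=
    MvPolynomial.X (Fin.castAdd (m + 2) (Fin.natAdd 0 0))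
  let y₀ : MvPolynomial (Fin ((0 + 3) + (m + 2))) ℤ :=
    MvPolynomial.X (Fin.castAdd (m + 2) (Fin.natAdd 0 1))
  let T : MvPolynomial (Fin ((0 + 3) + (m + 2))) ℤ :=
    MvPolynomial.X (Fin.castAdd (m + 2) (Fin.natAdd 0 2))
  let z : MvPolynomial (Fin ((0 + 3) + (m + 2))) ℤ :=
    MvPolynomial.X (Fin.natAdd (0 + 3) (Fin.natAdd m 0))
  let y : MvPolynomial (Fin ((0 + 3) + (m + 2))) ℤ :=
    MvPolynomial.X (Fin.natAdd (0 + 3) (Fin.natAdd m 1))
  (z * (y₀ ^ 2 - (1 + c ^ 4)) - 1) * (y ^ 2 - (1 + T ^ 4)) *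
    MvPolynomial.eval₂ (Int.castRingHom _) (fun o => o.elim T (Sum.elim (fun _ => c)
      (fun j => MvPolynomial.X (Fin.natAdd (0 + 3) (Fin.castAdd 2 j))))) q

theorem eval_sepPoly {m : ℕ} (q : MvPolynomial (Option (Unit ⊕ Fin m)) ℤ) {R : Type} [CommRing R]
    (x : Fin 0 → R) (u : Fin 3 → R) (w : Fin (m + 2) → R) :
    MvPolynomial.eval₂ (Int.castRingHom R) (Fin.append (Fin.append x u) w) (sepPoly m q) =
      (w (Fin.natAdd m 0) * (u 1 ^ 2 - (1 + u 0 ^ 4)) - 1) *
        (w (Fin.natAdd m 1) ^ 2 - (1 + u 2 ^ 4)) *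
        MvPolynomial.eval₂ (Int.castRingHom R) (fun o => o.elim (u 2) (Sum.elim (fun _ => u 0)
          (fun j => w (Fin.castAdd 2 j)))) q := by
  have h1 : ∀ i : Fin 3, Fin.append (Fin.append x u) w (Fin.castAdd (m + 2) (Fin.natAdd 0 i)) =
      u i := fun i => by rw [Fin.append_left, Fin.append_right]
  have h2 : ∀ i : Fin (m + 2), Fin.append (Fin.append x u) w (Fin.natAdd (0 + 3) i) = w i :=
    fun i => by rw [Fin.append_right]
  have h3 : MvPolynomial.eval₂ (Int.castRingHom R) (Fin.append (Fin.append x u) w)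
      (MvPolynomial.eval₂ (Int.castRingHom (MvPolynomial (Fin ((0 + 3) + (m + 2))) ℤ))
        (fun o : Option (Unit ⊕ Fin m) =>
        o.elim (MvPolynomial.X (Fin.castAdd (m + 2) (Fin.natAdd 0 2)))
        (Sum.elim (fun _ => MvPolynomial.X (Fin.castAdd (m + 2) (Fin.natAdd 0 0)))
        (fun j => MvPolynomial.X (Fin.natAdd (0 + 3) (Fin.castAdd 2 j))))) q) =
      MvPolynomial.eval₂ (Int.castRingHom R) (fun o => o.elim (u 2) (Sum.elim (fun _ => u 0)
          (fun j => w (Fin.castAdd 2 j)))) q := by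
    have h4 : (MvPolynomial.eval₂Hom (Int.castRingHom R) (Fin.append (Fin.append x u) w)).comp
      (MvPolynomial.eval₂Hom (Int.castRingHom (MvPolynomial (Fin ((0 + 3) + (m + 2))) ℤ))
        (fun o : Option (Unit ⊕ Fin m) =>
        o.elim (MvPolynomial.X (Fin.castAdd (m + 2) (Fin.natAdd 0 2)))
        (Sum.elim (fun _ => MvPolynomial.X (Fin.castAdd (m + 2) (Fin.natAdd 0 0)))
        (fun j => MvPolynomial.X (Fin.natAdd (0 + 3) (Fin.castAdd 2 j)))))) =
      MvPolynomial.eval₂Hom (Int.castRingHom R) (fun o => o.elim (u 2) (Sum.elim (fun _ => u 0)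
          (fun j => w (Fin.castAdd 2 j)))) := by
      apply MvPolynomial.ringHom_ext
      · intro n
        simp
      · intro o
        rcases o with _ | (_ | b)
        · simp only [RingHom.comp_apply, MvPolynomial.coe_eval₂Hom, MvPolynomial.eval₂_X,
            Option.elim_none, h1]
        · simp only [RingHom.comp_apply, MvPolynomial.coe_eval₂Hom, MvPolynomial.eval₂_X,
            Option.elim_some, Sum.elim_inl, h1]
        · simp only [RingHom.comp_apply, MvPolynomial.coe_eval₂Hom, MvPolynomial.eval₂_X,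
            Option.elim_some, Sum.elim_inr, h2]
    exact congrArg (fun g => g q) h4
  rw [← h3]
  simp only [sepPoly, MvPolynomial.eval₂_mul, MvPolynomial.eval₂_sub, MvPolynomial.eval₂_add,
    MvPolynomial.eval₂_pow, MvPolynomial.eval₂_one, MvPolynomial.eval₂_X, h1, h2]

/-- Some `Σ_2` sentence separates the two fields. -/
theorem upper : ∃ φ : Language.ring.Sentence, Blocks true 2 φ ∧
    Holds (RatFunc ℝ) φ ∧ ¬ Holds (RatFunc (algebraicClosure ℚ ℝ)) φ := by
  classical
  obtain ⟨β, hβ, p, hp⟩ := ne_exp_TD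
  obtain ⟨m, ⟨eq⟩⟩ := Finite.exists_equiv_fin β
  set q : MvPolynomial (Option (Unit ⊕ Fin m)) ℤ :=
    MvPolynomial.rename (Option.map (Sum.map id eq)) p with hq
  have hev : ∀ {K : Type} [CommRing K] (T c : K) (w : Fin m → K),
      MvPolynomial.eval₂ (Int.castRingHom K) (fun o => o.elim T (Sum.elim (fun _ => c) w)) q =
        MvPolynomial.eval₂ (Int.castRingHom K)
          (fun o => o.elim T (Sum.elim (fun _ => c) (w ∘ eq))) p := by
    intro K _ T c w
    rw [hq, MvPolynomial.eval₂_rename]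
    congr 1
    funext o
    rcases o with _ | (_ | b) <;> rfl
  refine ⟨exN 3 (allN (m + 2) (atom (sepPoly m q)).not),
    blocks_exN' 2 _ (blocks_allN' (m + 1) _ (Blocks.qf (atom_qf _).not)), ?_, ?_⟩
  · let i2 := FirstOrder.Ring.compatibleRingOfRing (RatFunc ℝ)
    refine (holds_iff _ Empty.elim Fin.elim0).2 ?_
    rw [realize_exN]
    refine ⟨![RatFunc.C (Real.exp 1), RatFunc.C (Real.sqrt (1 + Real.exp 1 ^ 4)), RatFunc.X], ?_⟩
    rw [realize_allN]
    intro w
    rw [BoundedFormula.realize_not, realize_atom, eval_sepPoly]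
    simp only [Matrix.cons_val_zero, Matrix.cons_val_one, Matrix.cons_val]
    intro h0
    have hs : (RatFunc.C (Real.sqrt (1 + Real.exp 1 ^ 4)) : RatFunc ℝ) ^ 2 -
        (1 + RatFunc.C (Real.exp 1) ^ 4) = 0 := by
      rw [← map_pow, ← map_pow, Real.sq_sqrt (by positivity), map_add, map_one, map_pow]
      ring
    rw [hs, mul_zero, zero_sub] at h0
    rcases mul_eq_zero.1 h0 with h1 | h1
    · rcases mul_eq_zero.1 h1 with h2 | h2
      · exact absurd h2 (neg_ne_zero.2 one_ne_zero)
      · obtain ⟨c, hc⟩ := const_of_sq (sub_eq_zero.1 h2)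
        exact X_ne_C c hc
    · rw [hev] at h1
      refine (hp (Real.exp 1)).2 ⟨(fun j => w (Fin.castAdd 2 j)) ∘ eq, ?_⟩ rfl
      rw [aeval_int_eq]
      exact h1
  · let i1 := FirstOrder.Ring.compatibleRingOfRing (RatFunc (algebraicClosure ℚ ℝ))
    intro hH
    have hH' := (holds_iff _ Empty.elim Fin.elim0).1 hH
    rw [realize_exN] at hH'
    obtain ⟨u, hu⟩ := hH'
    rw [realize_allN] at hu
    -- it suffices to find a zero
    have hu' : ∀ (z y : RatFunc RAlg) (w : Fin m → RatFunc RAlg),
        (z * (u 1 ^ 2 - (1 + u 0 ^ 4)) - 1) * (y ^ 2 - (1 + u 2 ^ 4)) *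
        MvPolynomial.eval₂ (Int.castRingHom (RatFunc RAlg))
          (fun o => o.elim (u 2) (Sum.elim (fun _ => u 0) w)) q ≠ 0 := by
      intro z y w h0
      have h1 := hu (Fin.append w ![z, y])
      rw [BoundedFormula.realize_not, realize_atom, eval_sepPoly] at h1
      apply h1
      rw [Fin.append_right, Fin.append_right]
      have h2 : (fun j => Fin.append w ![z, y] (Fin.castAdd 2 j)) = w := by
        funext j
        rw [Fin.append_left]
      rw [h2]
      exact h0
    clear hu hH
    by_cases hA : u 1 ^ 2 - (1 + u 0 ^ 4) = 0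
    swap
    · apply hu' (u 1 ^ 2 - (1 + u 0 ^ 4))⁻¹ 0 0
      rw [inv_mul_cancel₀ hA]
      ring
    obtain ⟨r, hr⟩ := const_of_sq (sub_eq_zero.1 hA)
    by_cases hT : ∃ s, u 2 = RatFunc.C s
    · obtain ⟨s, hs⟩ := hT
      obtain ⟨b, hb⟩ := sqrt_mem (a := 1 + s ^ 4) (by push_cast; positivity)
      apply hu' 0 (RatFunc.C b) 0
      have h3 : (RatFunc.C b : RatFunc RAlg) ^ 2 - (1 + u 2 ^ 4) = 0 := by
        rw [hs, ← map_pow, hb, map_add, map_one, map_pow]
        ring
      rw [h3]
      ring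
    · obtain ⟨σ, hσX, hσC⟩ := exists_subst (u 2) hT
      obtain ⟨w, hw⟩ := (hp (r : ℝ)).1 (exp_not_mem r)
      obtain ⟨w', hw'⟩ := transfer_point p r w hw
      rw [aeval_int_eq] at hw'
      apply hu' 0 0 (σ ∘ w' ∘ eq.symm)
      have h4 : MvPolynomial.eval₂ (Int.castRingHom (RatFunc RAlg))
          (fun o => o.elim (u 2) (Sum.elim (fun _ => u 0) (σ ∘ w' ∘ eq.symm))) q = 0 := by
        rw [hev]
        have h5 := congrArg σ hw'
        rw [map_zero, ← MvPolynomial.coe_eval₂Hom, ← RingHom.comp_apply] at h5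
        rw [← h5, ← MvPolynomial.coe_eval₂Hom]
        congr 1
        apply MvPolynomial.ringHom_ext
        · intro n
          simp
        · intro o
          rcases o with _ | (_ | b)
          · simp [hσX]
          · simp [hσC, hr]
          · simp
      rw [h4]
      ring

/-- The least `n` for which some `Σ_n` sentence separates `ℝ_alg(t)` and `ℝ(t)` is `2`. -/
theorem _root_.Pool.Agent.Results.MP_397872_lc.LeastSigma.result :
    IsLeast {n : ℕ | 1 ≤ n ∧ ∃ φ : Language.ring.Sentence, Blocks true n φ ∧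
      ¬ (Holds (RatFunc (algebraicClosure ℚ ℝ)) φ ↔ Holds (RatFunc ℝ) φ)} 2 := by
  constructor
  · obtain ⟨φ, h1, h2, h3⟩ := upper
    exact ⟨by norm_num, φ, h1, fun h => h3 (h.2 h2)⟩
  · rintro n ⟨hn, φ, h1, h2⟩
    by_contra hlt
    obtain rfl : n = 1 := by omega
    exact h2 (lower φ h1)

end Pool.Agent.Results.MP_397872_lc.LeastSigma
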